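import Pool.Agent.Helper67.DF.Stmts
import Pool.Agent.Helper67.BT.Basic2

/-!
Project DF (MP_10bc19_gt), row IBM: integration by parts for linear vector fields.
-/

open Finset MeasureTheory

namespace Pool.Agent.Helper51.DF

open Pool.Agent.Helper67.BT
open Pool.Agent.Helper67.DF

theorem st_IBM (hIG : ST_IG) (hIBP : ST_IBP) : ST_IBM := by
  intro n k a c K α U ψ w hs hPF A F D hF hD hFD
  obtain ⟨δ, hδ, hI⟩ := hIG n k a hs c hPF.c0
  obtain ⟨-, -, -, hpg, hint, -⟩ := hI K α U ψ w hPF
  let b := EuclideanSpace.basisFun (Fin k) ℝ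
  have hA : ∀ v : E k, PG fun x => inner ℝ v (A x) := by
    intro v
    have : (fun x => inner ℝ v (A x)) = fun x => inner ℝ (LinearMap.adjoint A v) x := by
      funext x
      rw [LinearMap.adjoint_inner_left]
    rw [this]
    exact PG_inner _
  have hψ : ∀ v : E k, PG fun x => ∑ l, ψ l (inner ℝ (a l) x) * inner ℝ (a l) v := fun v =>
    PG_sum _ fun l _ => PG_mul (hpg l).1 (PG_const _)
  have hi : ∀ i, J a U (fun x => (F x * inner ℝ (b i) (A x)) *
      ∑ l, ψ l (inner ℝ (a l) x) * inner ℝ (a l) (b i)) =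
      J a U fun x => inner ℝ (D x) (b i) * inner ℝ (b i) (A x) +
        F x * inner ℝ (b i) (A (b i)) := by
    intro i
    refine hIBP n k a c K α U ψ w hs hPF (b i) _ _ (PG_mul hF (hA _))
      (PG_add (PG_mul (hD _) (hA _)) (PG_mul hF (PG_const _))) fun x => ?_
    have ha : HasDerivAt (fun t : ℝ => F (x + t • b i)) (inner ℝ (D x) (b i)) 0 := hFD x (b i)
    have hb : HasDerivAt (fun t : ℝ => inner ℝ (b i) (A (x + t • b i)))
        (inner ℝ (b i) (A (b i))) 0 := by
      have : (fun t : ℝ => (inner ℝ (b i) (A (x + t • b i)) : ℝ)) =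
          fun t => inner ℝ (b i) (A x) + t * inner ℝ (b i) (A (b i)) := by
        funext t
        rw [map_add, map_smul, inner_add_right, inner_smul_right]
      rw [this]
      simpa using ((hasDerivAt_id (0 : ℝ)).mul_const (inner ℝ (b i) (A (b i)) : ℝ)).const_add
        (inner ℝ (b i) (A x) : ℝ)
    have hab := ha.mul hb
    simp only [zero_smul, add_zero] at hab
    exact hab
  have hsum1 : ∀ x : E k, F x * ∑ l, ψ l (inner ℝ (a l) x) * inner ℝ (a l) (A x) =
      ∑ i, (F x * inner ℝ (b i) (A x)) *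
        ∑ l, ψ l (inner ℝ (a l) x) * inner ℝ (a l) (b i) := by
    intro x
    have h1 : ∀ l, (inner ℝ (a l) (A x) : ℝ) =
        ∑ i, inner ℝ (a l) (b i) * inner ℝ (b i) (A x) := fun l =>
      (b.sum_inner_mul_inner _ _).symm
    simp only [h1, Finset.mul_sum]
    rw [Finset.sum_comm]
    refine Finset.sum_congr rfl fun i _ => Finset.sum_congr rfl fun l _ => ?_
    ring
  have hJ1 : J a U (fun x => F x * ∑ l, ψ l (inner ℝ (a l) x) * inner ℝ (a l) (A x)) =
      ∑ i, J a U (fun x => (F x * inner ℝ (b i) (A x)) *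
      ∑ l, ψ l (inner ℝ (a l) x) * inner ℝ (a l) (b i)) := by
    unfold J
    rw [← integral_finsetSum _ fun i _ => hint _ (PG_mul (PG_mul hF (hA _)) (hψ _))]
    refine integral_congr_ae (Filter.Eventually.of_forall fun x => ?_)
    simp only []
    rw [hsum1 x, Finset.sum_mul]
  have hJ2 : ∀ i, (J a U fun x => inner ℝ (D x) (b i) * inner ℝ (b i) (A x) +
        F x * inner ℝ (b i) (A (b i))) =
      J a U (fun x => inner ℝ (D x) (b i) * inner ℝ (b i) (A x)) +
        inner ℝ (b i) (A (b i)) * J a U F := by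
    intro i
    unfold J
    rw [← integral_const_mul, ← integral_add (hint _ (PG_mul (hD _) (hA _)))
      ((hint _ hF).const_mul _)]
    refine integral_congr_ae (Filter.Eventually.of_forall fun x => ?_)
    simp only []
    ring
  have hJ3 : ∑ i, J a U (fun x => inner ℝ (D x) (b i) * inner ℝ (b i) (A x)) =
      J a U fun x => inner ℝ (D x) (A x) := by
    unfold J
    rw [← integral_finsetSum _ fun i _ => hint _ (PG_mul (hD _) (hA _))]
    refine integral_congr_ae (Filter.Eventually.of_forall fun x => ?_)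
    simp only []
    rw [← Finset.sum_mul, b.sum_inner_mul_inner]
  rw [hJ1, Finset.sum_congr rfl fun i _ => hi i, Finset.sum_congr rfl fun i _ => hJ2 i,
    Finset.sum_add_distrib, hJ3, ← Finset.sum_mul, ← LinearMap.trace_eq_sum_inner A b]
  ring

end Pool.Agent.Helper51.DF
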