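import Pool.Agent.Helper67.DF.Stmts
import Pool.Agent.Helper67.BT.Basic2

/-!
Project DF (MP_10bc19_gt), row WB: moments of the second derivative.
-/

open Finset MeasureTheory

namespace Pool.Agent.Helper51.DF

open Pool.Agent.Helper67.BT
open Pool.Agent.Helper67.DF

variable {n k : ℕ} {a : Fin n → E k} {U : Fin n → ℝ → ℝ}

theorem Av_le {F G : E k → ℝ} (hJ : 0 < J a U fun _ => 1)
    (hF : Integrable fun x => F x * Real.exp (-(VV a U x)))
    (hG : Integrable fun x => G x * Real.exp (-(VV a U x)))
    (h : ∀ᵐ x : E k, F x ≤ G x) : Av a U F ≤ Av a U G := by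
  unfold Av
  refine div_le_div_of_nonneg_right ?_ hJ.le
  exact integral_mono_ae hF hG (h.mono fun x hx =>
    mul_le_mul_of_nonneg_right hx (Real.exp_pos _).le)

theorem Av_lin {F : E k → ℝ} (hJ : 0 < J a U fun _ => 1)
    (h1 : Integrable fun x => (1 : ℝ) * Real.exp (-(VV a U x)))
    (hF : Integrable fun x => F x * Real.exp (-(VV a U x))) (t r : ℝ) :
    Av a U (fun x => t * F x + r) = t * Av a U F + r := by
  unfold Av
  have : J a U (fun x => t * F x + r) = t * J a U F + r * J a U fun _ => 1 := by
    unfold J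
    rw [← integral_const_mul, ← integral_const_mul, ← integral_add (hF.const_mul _)
      (h1.const_mul _)]
    refine integral_congr_ae (Filter.Eventually.of_forall fun x => ?_)
    simp only []
    ring
  rw [this]
  field_simp

theorem ae_ne {e : E k} (he : e ≠ 0) : ∀ᵐ x : E k, inner ℝ e x ≠ (0 : ℝ) := by
  have h : (volume : Measure (E k)) (LinearMap.ker (innerₛₗ ℝ e) : Submodule ℝ (E k)) = 0 := by
    refine Measure.addHaar_submodule _ _ fun h => ?_
    have h1 : e ∈ LinearMap.ker (innerₛₗ ℝ e) := by
      rw [h]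
      exact Submodule.mem_top
    rw [LinearMap.mem_ker, innerₛₗ_apply_apply] at h1
    exact he (inner_self_eq_zero.1 h1)
  rw [ae_iff]
  refine measure_mono_null (fun x hx => ?_) h
  simp only [ne_eq, not_not, Set.mem_ofPred_eq] at hx
  simpa [LinearMap.mem_ker] using hx

theorem st_WB (hMW : ST_MW) (hUC : ST_UC) (hIG : ST_IG) : ST_WB := by
  intro n k a c l s hs hc hsd
  have hPF := hUC n c hc
  obtain ⟨δ, hδ, hI⟩ := hIG n k a hs (2 * c) hPF.c0
  obtain ⟨-, hVc, -, hpg, hint, hJ⟩ := hI _ _ _ _ _ hPF
  have h1 : Integrable fun x => (1 : ℝ) * Real.exp (-(VV a (cf (Uc c)) x)) :=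
    hint _ (PG_const 1)
  have hWpg : PG fun x : E k => Wc c (inner ℝ (a l) x) := (hpg l).2.1
  have hWipg : PG fun x : E k => (Wc c (inner ℝ (a l) x))⁻¹ := (hpg l).2.2
  have hWpos : ∀ t, 0 < Wc c t := fun t => by
    unfold Wc
    have := Real.rpow_nonneg (abs_nonneg t) (1 / 5)
    nlinarith
  have hcst : ∀ r : ℝ, Av a (cf (Uc c)) (fun _ => r) = r := by
    intro r
    have := Av_lin (a := a) (F := fun _ => (1 : ℝ)) hJ h1 h1 0 r
    simpa using this
  by_cases hal : a l = 0
  · -- degenerate case
    have hW : ∀ x : E k, Wc c (inner ℝ (a l) x) = 2 * c := by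
      intro x
      rw [hal, inner_zero_left]
      unfold Wc
      rw [abs_zero, Real.zero_rpow (by norm_num)]
      ring
    simp only [hW] at hsd ⊢
    rw [hcst] at hsd
    subst hsd
    have h2 : (2 * c) / (2 * c) = 1 := div_self (by positivity)
    rw [h2, hcst, hcst, hcst, hcst]
    refine ⟨by positivity, by norm_num, by norm_num, by norm_num, by norm_num⟩
  · obtain ⟨hM, hi1, hi2, e1, e2, e3, e4⟩ := hMW n k a (2 * c) _ _ _ _ _ (a l) hs hPF hal
      _ _ rfl rfl
    set q : E k → ℝ := fun x => |inner ℝ (a l) x| ^ (1 / 5 : ℝ) with hq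
    set M : ℝ := Av a (cf (Uc c)) q with hMdef
    have hqpg : PG q := PG_rpow (PG_inner _) (by norm_num)
    have hqi := hint _ hqpg
    have hs' : s = 66 / 25 * M + 2 * c := by
      rw [hsd, hMdef, ← Av_lin hJ h1 hqi]
      rfl
    have hs0 : 0 < s := by rw [hs']; positivity
    set th : ℝ := 66 / 25 * M / s with hth
    have hth0 : 0 < th := by rw [hth]; positivity
    have hth1' : 1 - th = 2 * c / s := by
      rw [hth]
      field_simp
      rw [hs']
      ring
    have hth1 : th < 1 := by
      have : 0 < 2 * c / s := by positivity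
      linarith
    have hWs : ∀ x, Wc c (inner ℝ (a l) x) / s = th * (q x / M) + (1 - th) := by
      intro x
      rw [hth1', hth]
      simp only [hq, Wc]
      field_simp
    have hWs' : ∀ x, s / Wc c (inner ℝ (a l) x) = (th * (q x / M) + (1 - th))⁻¹ := by
      intro x
      rw [← hWs, inv_div]
    have hae : ∀ᵐ x : E k, 0 < q x := by
      filter_upwards [ae_ne hal] with x hx
      exact Real.rpow_pos_of_pos (abs_pos.2 hx) _
    -- convexity
    have c1 : ∀ u : ℝ, 0 < u → (th * u + (1 - th))⁻¹ ≤ th * u⁻¹ + (1 - th) := by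
      intro u hu
      have h3 : 0 < th * u + (1 - th) := by nlinarith
      have h4 : (th * u⁻¹ + (1 - th)) * (th * u + (1 - th)) - 1 =
          th * (1 - th) * (u - 1) ^ 2 / u := by
        field_simp
        ring
      have h5 : 0 ≤ th * (1 - th) * (u - 1) ^ 2 / u := by
        have : 0 ≤ 1 - th := by linarith
        positivity
      rw [inv_le_iff_one_le_mul₀ h3]
      linarith
    have c2 : ∀ u : ℝ, 0 < u → ((th * u + (1 - th))⁻¹) ^ 2 ≤ th * (u⁻¹) ^ 2 + (1 - th) := by
      intro u hu
      have h3 : 0 < th * u + (1 - th) := by nlinarith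
      have h4 := pow_le_pow_left₀ (inv_pos.2 h3).le (c1 u hu) 2
      refine h4.trans ?_
      have : 0 ≤ th * (1 - th) * (u⁻¹ - 1) ^ 2 := by
        have : 0 ≤ 1 - th := by linarith
        positivity
      nlinarith
    have c3 : ∀ u : ℝ, 0 < u → ((th * u + (1 - th)) - 2 + (th * u + (1 - th))⁻¹) ^ 2 ≤
        th * (u - 2 + u⁻¹) ^ 2 := by
      intro u hu
      have h3 : 0 < th * u + (1 - th) := by nlinarith
      have h6 : ∀ v : ℝ, 0 < v → v - 2 + v⁻¹ = (v - 1) ^ 2 / v := by
        intro v hv
        field_simp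
        ring
      have h7 : 0 ≤ (th * u + (1 - th)) - 2 + (th * u + (1 - th))⁻¹ := by
        rw [h6 _ h3]
        positivity
      have h8 : (th * u + (1 - th)) - 2 + (th * u + (1 - th))⁻¹ ≤ th * (u - 2 + u⁻¹) := by
        have := c1 u hu
        linarith
      have h9 := pow_le_pow_left₀ h7 h8 2
      refine h9.trans ?_
      rw [mul_pow]
      have : 0 ≤ (u - 2 + u⁻¹) ^ 2 := sq_nonneg _
      nlinarith
    have c4 : ∀ u : ℝ, ((th * u + (1 - th)) - 1) ^ 4 ≤ th * (u - 1) ^ 4 := by
      intro u
      have : (th * u + (1 - th)) - 1 = th * (u - 1) := by ring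
      rw [this, mul_pow]
      have h3 : th ^ 4 ≤ th := by
        have h4 : th ^ 3 ≤ 1 := pow_le_one₀ hth0.le hth1.le
        nlinarith
      exact mul_le_mul_of_nonneg_right h3 (by positivity)
    -- integrability of the right sides
    have r1 : Integrable fun x => (M / q x) * Real.exp (-(VV a (cf (Uc c)) x)) := by
      refine (hi1.const_mul M).congr (Filter.Eventually.of_forall fun x => ?_)
      simp only []
      ring
    have r2 : Integrable fun x => (M / q x) ^ 2 * Real.exp (-(VV a (cf (Uc c)) x)) := by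
      refine (hi2.const_mul (M ^ 2)).congr (Filter.Eventually.of_forall fun x => ?_)
      simp only []
      ring
    have r3 : Integrable fun x => (q x / M - 2 + M / q x) ^ 2 *
        Real.exp (-(VV a (cf (Uc c)) x)) := by
      have t1 := hint _ (PG_pow (PG_div_const hqpg M) 2)
      have t2 := hint _ (PG_div_const hqpg M)
      have t3 := (((t1.add r2).add (h1.const_mul 6)).sub (t2.const_mul 4)).sub (r1.const_mul 4)
      refine t3.congr (hae.mono fun x hx => ?_)
      simp only [Pi.add_apply, Pi.sub_apply]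
      have hm : q x / M * (M / q x) = 1 := by
        field_simp
      have : (q x / M - 2 + M / q x) ^ 2 = (q x / M) ^ 2 + (M / q x) ^ 2 +
          (4 + 2 * (q x / M * (M / q x))) - 4 * (q x / M) - 4 * (M / q x) := by ring
      rw [this, hm]
      ring
    have r4 : Integrable fun x => (q x / M - 1) ^ 4 * Real.exp (-(VV a (cf (Uc c)) x)) :=
      hint _ (PG_pow (PG_sub (PG_div_const hqpg M) (PG_const 1)) 4)
    -- integrability of the left sides
    have pW : PG fun x : E k => th * (q x / M) + (1 - th) :=
      PG_add (PG_const_mul _ (PG_div_const hqpg M)) (PG_const _)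
    have pWi : PG fun x : E k => (th * (q x / M) + (1 - th))⁻¹ := by
      have : (fun x : E k => (th * (q x / M) + (1 - th))⁻¹) =
          fun x => s * (Wc c (inner ℝ (a l) x))⁻¹ := by
        funext x
        rw [← hWs', div_eq_mul_inv]
      rw [this]
      exact PG_const_mul _ hWipg
    have i1 : ∀ (F : E k → ℝ), Integrable (fun x => F x * Real.exp (-(VV a (cf (Uc c)) x))) →
        ∀ t r : ℝ, Integrable fun x => (t * F x + r) * Real.exp (-(VV a (cf (Uc c)) x)) := by
      intro F hF t r
      refine ((hF.const_mul t).add (h1.const_mul r)).congr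
        (Filter.Eventually.of_forall fun x => ?_)
      simp only [Pi.add_apply]
      ring
    simp only [hWs, hWs']
    refine ⟨hs0, ?_, ?_, ?_, ?_⟩
    · refine (Av_le (G := fun x => th * (M / q x) + (1 - th)) hJ (hint _ pWi)
        (i1 _ r1 _ _) (hae.mono fun x hx => ?_)).trans ?_
      · have := c1 (q x / M) (by positivity)
        rwa [inv_div] at this
      · rw [Av_lin hJ h1 r1]
        nlinarith
    · refine (Av_le (G := fun x => th * (M / q x) ^ 2 + (1 - th)) hJ (hint _ (PG_pow pWi 2))
        (i1 _ r2 _ _) (hae.mono fun x hx => ?_)).trans ?_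
      · have := c2 (q x / M) (by positivity)
        rwa [inv_div] at this
      · rw [Av_lin hJ h1 r2]
        nlinarith
    · refine (Av_le (G := fun x => th * (q x / M - 2 + M / q x) ^ 2 + 0) hJ
        (hint _ (PG_pow (PG_add (PG_sub pW (PG_const 2)) pWi) 2))
        (i1 _ r3 _ _) (hae.mono fun x hx => ?_)).trans ?_
      · have := c3 (q x / M) (by positivity)
        rw [inv_div] at this
        simpa using this
      · rw [Av_lin hJ h1 r3]
        nlinarith
    · refine (Av_le (G := fun x => th * (q x / M - 1) ^ 4 + 0) hJ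
        (hint _ (PG_pow (PG_sub pW (PG_const 1)) 4))
        (i1 _ r4 _ _) (hae.mono fun x hx => ?_)).trans ?_
      · simpa using c4 (q x / M)
      · rw [Av_lin hJ h1 r4]
        nlinarith

end Pool.Agent.Helper51.DF
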